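import Pool.Agent.Helper290.Sym.FreeSys
import Pool.Agent.Helper290.Sym.Two

set_option autoImplicit false

namespace Pool.Agent.Results.MP_52363e_lc.TwoValued

open Pool.Agent.Helper290.Sym

/-- There is a symmetric Boolean-valued model of ZF over the universe `Type` in which (S) fails,
and there is an ordinary two-valued model `V` of ZF in which (S) fails; `V` satisfies all
first-order sentences which have value `⊤` in the Boolean-valued model. -/
theorem result : ∃ S : SymSystem, Nontrivial S.B ∧ ModelsZF S.model ∧ S.model.failsS = ⊤ ∧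
    ∃ V : BStr Prop, (∀ x y : V.carrier, V.eq x y ↔ x = y) ∧ ModelsZF V ∧ V.failsS ∧
      ∀ φ : Fml 0, φ.val S.model Fin.elim0 = ⊤ → φ.val V Fin.elim0 := by
  let S := sys (FreeGroup ℕ) Fin0
  have : Nontrivial S.B := inferInstanceAs (Nontrivial (Reg (Cond (Pos (FreeGroup ℕ)))))
  have : Inhabited S.model.carrier := ⟨(SymSystem.emp : S.M)⟩
  obtain ⟨G⟩ := exists_gen S.model
  have hW : ModelsZF S.model := SymSystem.models _
  have hall : ∀ φ : Fml 0, φ.val S.model Fin.elim0 = ⊤ → φ.val (G.two hW) Fin.elim0 := by
    intro φ h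
    have h1 := G.transfer hW φ (fun s => by
      have : s = Fin.elim0 := funext fun i => i.elim0
      rw [this, h]) Fin.elim0
    rw [h1]
    trivial
  refine ⟨S, inferInstance, hW, failsS_free, G.two hW, fun x y => Iff.rfl, G.two_models hW, ?_,
    hall⟩
  have h := hall Fml.d_failsS (by
    rw [Fml.val_failsS]
    exact failsS_free)
  rwa [Fml.val_failsS] at h

end Pool.Agent.Results.MP_52363e_lc.TwoValued
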